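import Pool.Agent.Y535.PEG.Fre
import Pool.Agent.Y535.PEG.ExD

/-! Integer charges of the arcs of a curve without inscribed squares, with the rule for free paths
of chords. -/

set_option autoImplicit false
open Complex Set Topology Metric

namespace Pool.Agent.U619.PEG

open Pool.Agent.H763R2 Pool.Agent.H763R2.An Pool.Agent.W675.Peg Pool.Agent.TH569.Peg
open Pool.Agent.H763R2.Dm (NoSq floor_const)
open Pool.Agent.Y535.PEG

variable {c : ℝ → ℂ}

/-- the integer charge of a curve without inscribed squares -/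
theorem exChargeF (L : Loop c) (J : Inj c) (nosq : NoSq (range c)) :
    ∃ (x : ℝ → ℤ) (g : ℤ), Odd g ∧
      (∀ s, Cone c s → x (s + 1) = x s + g) ∧
      (∀ s t, AR c s t → (∀ r ∈ Icc s t, Mon c r) → x t = x s) ∧
      (∀ s t s' t', AR c s t → AR c s' t' → KP c s t s' t' → x t' - x s' = x t - x s) ∧
      (∀ s t s' t', AR c s t → AR c s' t' → SP c s t s' t' → x t' - x s' = -(x t - x s)) ∧
      (∀ s t, AR c s t → MN c s t → Even (x t - x s)) ∧
      (∀ s t, AR c s t → FL c s t ∨ FR c s t → x t = x s) := by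
  classical
  obtain ⟨θ, g, A, ho⟩ := exists_odd L J nosq
  obtain ⟨z0, h0⟩ := exists_pos L J nosq
  by_cases hex : ∃ s0, Cone c s0
  · obtain ⟨s0, C0⟩ := hex
    obtain ⟨l0, hl0⟩ := exKL L J A C0
    have ex1 : ∀ s, ∃ k : ℤ, Cone c s → KL θ s (l0 + 2 * k) := fun s => by
      by_cases hs : Cone c s
      · obtain ⟨k, hk⟩ := exKL L J A hs
        obtain ⟨m, hm⟩ := KL.parity L J h0 A C0 hs hl0 hk
        exact ⟨m, fun _ => by rwa [show l0 + 2 * m = k by linarith]⟩
      · exact ⟨0, fun h => absurd h hs⟩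
    choose x hx using ex1
    refine ⟨x, g, ho, ?_, ?_, ?_, ?_, ?_, ?_⟩
    · intro s hs
      have hs1 := hs.per L
      have e1 := (hx (s + 1) hs1).uniq ((hx s hs).per A)
      linarith
    · intro s t h hM
      have := monoX jP jT2 Y407.PEG.sgU jI L J nosq A h.ab h.ba h.ha h.hb hM (hx s h.ha) (hx t h.hb)
      linarith
    · intro s t s' t' h h' hK
      have e1 := keepL L J h0 A h h' (hx s h.ha) (hx t h.hb) (hx s' h'.ha) (hx t' h'.hb) hK
      linarith
    · intro s t s' t' h h' hK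
      obtain ⟨ra, k1⟩ := exKR L J A h'.ha
      obtain ⟨rb, k2⟩ := exKR L J A h'.hb
      have e1 := swapLR L J h0 A h h' (hx s h.ha) (hx t h.hb) k1 k2 hK
      have e2 := parityX jP jT1 Y407.PEG.sgU jI L J nosq A h'.ab h'.ba h'.ha h'.hb (hx s' h'.ha)
        (hx t' h'.hb) k1 k2
      linarith
    · rintro s t h ⟨u, v, hu, e1, e2⟩
      obtain ⟨k, hk⟩ := mirror_evenN L J nosq h0 A h (hx s h.ha) (hx t h.hb) hu e1 e2
      exact ⟨k, by linarith⟩
    · rintro s t h (hF | hF)
      · have := free_eq L J A h.ha h.hb (hx s h.ha) (hx t h.hb) hF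
        linarith
      · obtain ⟨ra, k1⟩ := exKR L J A h.ha
        obtain ⟨rb, k2⟩ := exKR L J A h.hb
        have e1 := free_eqR L J A h.ha h.hb k1 k2 hF
        have e2 := parityX jP jT1 Y407.PEG.sgU jI L J nosq A h.ab h.ba h.ha h.hb (hx s h.ha)
          (hx t h.hb) k1 k2
        linarith
  · refine ⟨0, g, ho, ?_, ?_, ?_, ?_, ?_, ?_⟩
    · exact fun s hs => absurd ⟨s, hs⟩ hex
    · exact fun s t h => absurd ⟨s, h.ha⟩ hex
    · exact fun s t s' t' h => absurd ⟨s, h.ha⟩ hex
    · exact fun s t s' t' h => absurd ⟨s, h.ha⟩ hex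
    · exact fun s t h => absurd ⟨s, h.ha⟩ hex
    · exact fun s t h => absurd ⟨s, h.ha⟩ hex

end Pool.Agent.U619.PEG
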