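import Mathlib

/-! A localisation argument on the line: an integer function, defined on a set `T` of tame points,
is constant modulo two if it is so locally in a weak sense. -/

set_option autoImplicit false
open Set Topology Filter

namespace Pool.Agent.U619.PEG

/-- `x` is constant modulo two on the points of `T` in `(u, v)` -/
def Con (T : Set ℝ) (x : ℝ → ℤ) (u v : ℝ) : Prop :=
  ∀ r ∈ T, ∀ r' ∈ T, r ∈ Ioo u v → r' ∈ Ioo u v → Even (x r' - x r)

structure Data (M T Z : Set ℝ) (x : ℝ → ℤ) (a b : ℝ) : Prop where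
  sub : T ⊆ M
  op : IsOpen M
  ab : a < b
  ha : a ∈ T
  hb : b ∈ T
  mono : ∀ s ∈ T, ∀ t ∈ T, a ≤ s → s < t → t ≤ b → Icc s t ⊆ M → Even (x t - x s)
  cross : ∀ t ∈ Icc a b, t ∉ M → ∀ ε > 0, ∃ s ∈ T, ∃ s' ∈ T, t - ε < s ∧ s < t ∧ t < s' ∧
    s' < t + ε ∧ Even (x s' - x s)
  Zc : Z.Countable
  Zcl : IsClosed Z
  tr1 : ∀ t ∈ Icc a b, t ∉ M → t ∉ Z → ∀ b', t < b' → Con T x t b' → ∃ a' < t, Con T x a' t
  tr2 : ∀ t ∈ Icc a b, t ∉ M → t ∉ Z → ∀ a', a' < t → Con T x a' t → ∃ b', t < b' ∧ Con T x t b'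

variable {M T Z : Set ℝ} {x : ℝ → ℤ} {a b : ℝ}

theorem z2e {m n : ℤ} : Even (m - n) ↔ (m : ZMod 2) = n := by
  rw [← ZMod.intCast_eq_zero_iff_even]
  push_cast
  rw [sub_eq_zero]

theorem Data.mem (D : Data M T Z x a b) {t : ℝ} (ht : t ∈ Icc a b) (htM : t ∉ M) : t ∈ Ioo a b :=
  ⟨lt_of_le_of_ne ht.1 (fun e => htM (e ▸ D.sub D.ha)),
    lt_of_le_of_ne ht.2 (fun e => htM (e ▸ D.sub D.hb))⟩

/-- a tame point to the left in the same component -/
theorem Data.left (D : Data M T Z x a b) {p s : ℝ} (hp : p ∈ T ∨ p ∉ M) (hap : a ≤ p) (hps : p < s)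
    (hsb : s ≤ b) (hs : s ∈ M) : ∃ r ∈ T, p ≤ r ∧ r < s ∧ Icc r s ⊆ M := by
  by_cases h : Icc p s ⊆ M
  · rcases hp with hp | hp
    · exact ⟨p, hp, le_rfl, hps, h⟩
    · exact absurd (h ⟨le_rfl, hps.le⟩) hp
  · obtain ⟨q, hq, hqM⟩ := not_subset.1 h
    have hc : IsCompact (Mᶜ ∩ Icc p s) := isCompact_Icc.inter_left D.op.isClosed_compl
    have hne : (Mᶜ ∩ Icc p s).Nonempty := ⟨q, hqM, hq⟩
    have hu := hc.sSup_mem hne
    obtain ⟨u, hue⟩ : ∃ u, u = sSup (Mᶜ ∩ Icc p s) := ⟨_, rfl⟩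
    rw [← hue] at hu
    have hub : ∀ y ∈ Mᶜ ∩ Icc p s, y ≤ u := fun y hy => by rw [hue]; exact le_csSup hc.bddAbove hy
    have hus : u < s := lt_of_le_of_ne hu.2.2 (fun h => hu.1 (h ▸ hs))
    obtain ⟨_, -, s', hs', -, -, h1, h2, -⟩ := D.cross u ⟨hap.trans hu.2.1, by linarith⟩ hu.1
      (s - u) (by linarith)
    refine ⟨s', hs', hu.2.1.trans h1.le, by linarith, fun y hy => ?_⟩
    by_contra hyM
    have := hub y ⟨hyM, by linarith [hu.2.1, hy.1], hy.2⟩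
    linarith [hy.1]

theorem Data.left0 (D : Data M T Z x a b) {s : ℝ} (h1 : a < s) (h2 : s ≤ b) (hs : s ∈ M) :
    ∃ r ∈ T, a ≤ r ∧ r < s ∧ Icc r s ⊆ M := D.left (Or.inl D.ha) le_rfl h1 h2 hs

def V (M T : Set ℝ) (x : ℝ → ℤ) (a : ℝ) (s : ℝ) (z : ZMod 2) : Prop :=
  ∃ r ∈ T, a ≤ r ∧ r < s ∧ Icc r s ⊆ M ∧ (x r : ZMod 2) = z

theorem Data.eq_of (D : Data M T Z x a b) {r r' s : ℝ} (hr : r ∈ T) (hr' : r' ∈ T) (har : a ≤ r)
    (h1 : r ≤ r') (h2 : r' ≤ s) (hsb : s ≤ b) (h : Icc r s ⊆ M) : (x r : ZMod 2) = x r' := by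
  rcases h1.eq_or_lt with h1 | h1
  · rw [h1]
  · have h3 : Icc r r' ⊆ M := (Icc_subset_Icc_right h2).trans h
    exact (z2e.1 (D.mono r hr r' hr' har h1 (h2.trans hsb) h3)).symm

theorem Data.Vuniq (D : Data M T Z x a b) {s : ℝ} (hsb : s ≤ b) {z z' : ZMod 2}
    (h : V M T x a s z) (h' : V M T x a s z') : z = z' := by
  obtain ⟨r, h1, h0, h2, h3, rfl⟩ := h
  obtain ⟨r', h1', h0', h2', h3', rfl⟩ := h'
  rcases le_total r r' with h | h
  · exact D.eq_of h1 h1' h0 h h2'.le hsb h3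
  · exact (D.eq_of h1' h1 h0' h h2.le hsb h3').symm

theorem Data.exh (D : Data M T Z x a b) : ∃ h : ℝ → ZMod 2, ∀ s z, s ∈ M → a < s → s ≤ b →
    (V M T x a s z ↔ h s = z) := by
  classical
  have : ∀ s, ∃ z, s ∈ M → a < s → s ≤ b → V M T x a s z := fun s => by
    by_cases hs : s ∈ M ∧ a < s ∧ s ≤ b
    · obtain ⟨r, h1, h0, h2, h3⟩ := D.left0 hs.2.1 hs.2.2 hs.1
      exact ⟨x r, fun _ _ _ => ⟨r, h1, h0, h2, h3, rfl⟩⟩
    · exact ⟨0, fun h h' h'' => absurd ⟨h, h', h''⟩ hs⟩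
  choose h hh using this
  refine ⟨h, fun s z hs h1 h2 => ⟨fun hV => D.Vuniq h2 (hh s hs h1 h2) hV, fun e => ?_⟩⟩
  rw [← e]; exact hh s hs h1 h2

theorem Data.V_self (D : Data M T Z x a b) {s : ℝ} (hs : s ∈ T) (h1 : a < s) (h2 : s ≤ b) :
    V M T x a s (x s) := by
  obtain ⟨r, k1, k0, k2, k3⟩ := D.left0 h1 h2 (D.sub hs)
  exact ⟨r, k1, k0, k2, k3, D.eq_of k1 hs k0 k2.le le_rfl h2 k3⟩

theorem Data.V_nhds (D : Data M T Z x a b) {s : ℝ} {z : ZMod 2} (h : V M T x a s z) :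
    ∀ᶠ s' in 𝓝 s, V M T x a s' z := by
  obtain ⟨r, h1, h0, h2, h3, h4⟩ := h
  have hs : M ∈ 𝓝 s := D.op.mem_nhds (h3 ⟨h2.le, le_rfl⟩)
  obtain ⟨ε, hε, hb⟩ := Metric.mem_nhds_iff.1 hs
  have h5 : ∀ᶠ s' in 𝓝 s, s' ∈ Ioo r (s + ε) := Ioo_mem_nhds h2 (by linarith)
  filter_upwards [h5] with s' hs'
  refine ⟨r, h1, h0, hs'.1, fun y hy => ?_, h4⟩
  rcases le_or_gt y s with h6 | h6
  · exact h3 ⟨hy.1, h6⟩
  · apply hb
    rw [Metric.mem_ball, Real.dist_eq, abs_lt]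
    constructor <;> linarith [hy.2, hs'.2]

/-- the function is constant modulo two -/
theorem Data.even (D : Data M T Z x a b) : Even (x b - x a) := by
  classical
  obtain ⟨h, hh⟩ := D.exh
  have hab := D.ab
  have dense : ∀ t ∈ Ioo a b, ∀ ε > 0, ∃ m ∈ M, t - ε < m ∧ m < t + ε := by
    intro t hab ε hε
    by_cases ht : t ∈ M
    · exact ⟨t, ht, by linarith, by linarith⟩
    · obtain ⟨s, hs, _, _, h1, h2, _, _, _⟩ := D.cross t ⟨hab.1.le, hab.2.le⟩ ht ε hε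
      exact ⟨s, D.sub hs, h1, by linarith⟩
  have hT : ∀ s ∈ T, a < s → s ≤ b → h s = x s := fun s hs h1 h2 =>
    (hh s _ (D.sub hs) h1 h2).1 (D.V_self hs h1 h2)
  obtain ⟨L, hL⟩ : ∃ L : ℝ → ZMod 2 → Prop, ∀ t z, L t z ↔ ∀ᶠ s in 𝓝 t, s ∈ M → h s = z :=
    ⟨_, fun _ _ => Iff.rfl⟩
  have Luniq : ∀ t ∈ Ioo a b, ∀ z z', L t z → L t z' → z = z' := by
    intro t htab z z' h1 h2
    rw [hL] at h1 h2
    obtain ⟨ε, hε, hb⟩ := Metric.eventually_nhds_iff_ball.1 (h1.and h2)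
    obtain ⟨m, hm, e1, e2⟩ := dense t htab ε hε
    obtain ⟨a1, a2⟩ := hb m (by rw [Metric.mem_ball, Real.dist_eq, abs_lt]; constructor <;> linarith)
    rw [← a1 hm, ← a2 hm]
  have Lloc : ∀ t z, L t z → ∀ᶠ s in 𝓝 t, L s z := by
    intro t z h1
    rw [hL] at h1
    filter_upwards [eventually_eventually_nhds.2 h1] with s hs
    rw [hL]; exact hs
  obtain ⟨U, hU⟩ : ∃ U : Set ℝ, ∀ t, t ∈ U ↔ t ∈ Ioo a b ∧ ∃ z, L t z :=
    ⟨{t | t ∈ Ioo a b ∧ ∃ z, L t z}, fun _ => Iff.rfl⟩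
  have hMU : ∀ s ∈ M, s ∈ Ioo a b → s ∈ U := by
    intro s hs hsab
    rw [hU]
    refine ⟨hsab, h s, ?_⟩
    rw [hL]
    filter_upwards [D.V_nhds ((hh s _ hs hsab.1 hsab.2.le).2 rfl), Ioo_mem_nhds hsab.1 hsab.2]
      with s' hs' hI hM
    exact (hh s' _ hM hI.1 hI.2.le).1 hs'
  have hUo : IsOpen U := by
    rw [isOpen_iff_mem_nhds]
    intro t ht
    obtain ⟨htab, z, hz⟩ := (hU t).1 ht
    filter_upwards [Lloc t z hz, Ioo_mem_nhds htab.1 htab.2] with s hs hI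
    exact (hU s).2 ⟨hI, z, hs⟩
  have chain : ∀ u v : ℝ, Ioo u v ⊆ U → ∃ z, ∀ s ∈ Ioo u v, s ∈ M → h s = z := by
    intro u v huv
    let _ : TopologicalSpace (ZMod 2) := ⊥
    have _ : DiscreteTopology (ZMod 2) := ⟨rfl⟩
    have ex : ∀ t, ∃ z, t ∈ U → L t z := fun t => by
      by_cases ht : t ∈ U
      · obtain ⟨-, z, hz⟩ := (hU t).1 ht
        exact ⟨z, fun _ => hz⟩
      · exact ⟨0, fun h => absurd h ht⟩
    choose G hG using ex
    have hcont : ContinuousOn G (Ioo u v) := by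
      intro t ht
      have h1 := Lloc t _ (hG t (huv ht))
      have h2 : ∀ᶠ s in 𝓝 t, G s = G t := by
        filter_upwards [h1, hUo.mem_nhds (huv ht)] with s hs hsU
        exact Luniq s ((hU s).1 hsU).1 _ _ (hG s hsU) hs
      exact ((tendsto_const_nhds (x := G t)).congr' (h2.mono fun s hs => hs.symm)).mono_left
        nhdsWithin_le_nhds
    have hpre : IsPreconnected (Ioo u v) := isPreconnected_Ioo
    rcases (Ioo u v).eq_empty_or_nonempty with he | ⟨t0, ht0⟩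
    · exact ⟨0, fun s hs => absurd hs (by rw [he]; exact notMem_empty s)⟩
    · refine ⟨G t0, fun s hs hsM => ?_⟩
      have e1 := hpre.constant hcont hs ht0
      have e2 := hG s (huv hs)
      rw [hL] at e2
      rw [← e1]
      exact e2.self_of_nhds hsM
  have mkCon : ∀ u v z, a ≤ u → v ≤ b → (∀ s ∈ Ioo u v, s ∈ M → h s = z) → Con T x u v := by
    intro u v z hau hvb hz r hr r' hr' h1 h2
    rw [z2e, ← hT r hr (by linarith [h1.1]) (by linarith [h1.2]),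
      ← hT r' hr' (by linarith [h2.1]) (by linarith [h2.2]), hz r h1 (D.sub hr), hz r' h2 (D.sub hr')]
  -- left end of a gap
  have gapR : ∀ u ∈ Icc a b, ∀ t0, u ∉ M → u ∉ U → u < t0 → t0 ≤ b → Ioo u t0 ⊆ U → u ∈ Z := by
    intro u huab t0 huM hu hut htb hsub
    by_contra hZ
    have huI := D.mem huab huM
    obtain ⟨z, hz⟩ := chain u t0 hsub
    obtain ⟨a', hau, hca⟩ := D.tr1 u huab huM hZ t0 hut (mkCon u t0 z huab.1 htb hz)
    obtain ⟨a1, ha1, s', hs', k1, k2, k3, k4, k5⟩ := D.cross u huab huM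
      (min (min (u - a') (u - a)) (t0 - u))
      (lt_min (lt_min (by linarith) (by linarith [huI.1])) (by linarith))
    have k6 := (min_le_left (min (u - a') (u - a)) (t0 - u)).trans (min_le_left _ _)
    have k8 := (min_le_left (min (u - a') (u - a)) (t0 - u)).trans (min_le_right _ _)
    have k7 := min_le_right (min (u - a') (u - a)) (t0 - u)
    have e1 : (x a1 : ZMod 2) = z := by
      rw [← hz s' ⟨k3, by linarith⟩ (D.sub hs'), hT s' hs' (by linarith [huI.1]) (by linarith)]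
      exact (z2e.1 k5).symm
    have e2 : ∀ s ∈ Ioo a1 u, s ∈ M → h s = z := by
      intro s hs hsM
      obtain ⟨r, hr, m1, m2, m3⟩ := D.left (Or.inl ha1) (by linarith) hs.1
        (by linarith [hs.2, huab.2]) hsM
      have e3 : h s = x r := (hh s _ hsM (by linarith) (by linarith [hs.2, huab.2])).1
        ⟨r, hr, by linarith, m2, m3, rfl⟩
      rw [e3, ← e1]
      exact z2e.1 (hca a1 ha1 r hr ⟨by linarith, k2⟩ ⟨by linarith, by linarith [hs.2]⟩)
    apply hu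
    rw [hU]
    refine ⟨huI, z, ?_⟩
    rw [hL]
    filter_upwards [Ioo_mem_nhds k2 hut] with s hs hsM
    rcases lt_trichotomy s u with h1 | h1 | h1
    · exact e2 s ⟨hs.1, h1⟩ hsM
    · exact absurd (h1 ▸ hsM) huM
    · exact hz s ⟨h1, hs.2⟩ hsM
  have gapL : ∀ v ∈ Icc a b, ∀ t0, v ∉ M → v ∉ U → t0 < v → a ≤ t0 → Ioo t0 v ⊆ U → v ∈ Z := by
    intro v hvab t0 hvM hv htv hat hsub
    by_contra hZ
    have hvI := D.mem hvab hvM
    obtain ⟨z, hz⟩ := chain t0 v hsub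
    obtain ⟨b', hvb, hcb⟩ := D.tr2 v hvab hvM hZ t0 htv (mkCon t0 v z hat hvab.2 hz)
    obtain ⟨s1, hs1, s', hs', k1, k2, k3, k4, k5⟩ := D.cross v hvab hvM
      (min (v - t0) (min (b' - v) (b - v)))
      (lt_min (by linarith) (lt_min (by linarith) (by linarith [hvI.2])))
    have k6 := min_le_left (v - t0) (min (b' - v) (b - v))
    have k7 := (min_le_right (v - t0) (min (b' - v) (b - v))).trans (min_le_left _ _)
    have k8 := (min_le_right (v - t0) (min (b' - v) (b - v))).trans (min_le_right _ _)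
    have e1 : (x s' : ZMod 2) = z := by
      rw [← hz s1 ⟨by linarith, k2⟩ (D.sub hs1), hT s1 hs1 (by linarith) (by linarith [hvab.2])]
      exact z2e.1 k5
    have e2 : ∀ s ∈ Ioo v s', s ∈ M → h s = z := by
      intro s hs hsM
      obtain ⟨r, hr, m1, m2, m3⟩ := D.left (Or.inr hvM) hvab.1 hs.1 (by linarith [hs.2]) hsM
      have m4 : v < r := lt_of_le_of_ne m1 (fun e => hvM (e ▸ D.sub hr))
      have e3 : h s = x r := (hh s _ hsM (by linarith [hvab.1]) (by linarith [hs.2])).1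
        ⟨r, hr, by linarith [hvab.1], m2, m3, rfl⟩
      rw [e3, ← e1]
      exact z2e.1 (hcb s' hs' r hr ⟨k3, by linarith⟩ ⟨m4, by linarith [hs.2]⟩)
    apply hv
    rw [hU]
    refine ⟨hvI, z, ?_⟩
    rw [hL]
    filter_upwards [Ioo_mem_nhds htv k3] with s hs hsM
    rcases lt_trichotomy s v with h1 | h1 | h1
    · exact hz s ⟨hs.1, h1⟩ hsM
    · exact absurd (h1 ▸ hsM) hvM
    · exact e2 s ⟨h1, hs.2⟩ hsM
  obtain ⟨F, hF⟩ : ∃ F : Set ℝ, F = (M ∪ U)ᶜ ∩ Icc a b := ⟨_, rfl⟩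
  have hFc : IsClosed F := by
    rw [hF]; exact (D.op.union hUo).isClosed_compl.inter isClosed_Icc
  have hFm : ∀ p, p ∈ F ↔ p ∉ M ∧ p ∉ U ∧ p ∈ Icc a b := by
    intro p
    rw [hF, mem_inter_iff, mem_compl_iff, mem_union, not_or, and_assoc]
  have hFI : ∀ p ∈ F, p ∈ Ioo a b := fun p hp => D.mem ((hFm p).1 hp).2.2 ((hFm p).1 hp).1
  have hnF : ∀ p ∈ Ioo a b, p ∉ F → p ∈ U := by
    intro p hp hpF
    by_contra hpU
    exact hpF ((hFm p).2 ⟨fun hM => hpU (hMU p hM hp), hpU, hp.1.le, hp.2.le⟩)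
  have hFZ : F ⊆ Z := by
    intro p hp
    by_contra hpZ
    have hpI := hFI p hp
    obtain ⟨hpM, hpU, hpab⟩ := (hFm p).1 hp
    obtain ⟨ε, hε, hb⟩ := Metric.isOpen_iff.1 D.Zcl.isOpen_compl p hpZ
    have hball : ∀ q, |q - p| < ε → q ∉ Z := fun q hq => hb (by rwa [Metric.mem_ball, Real.dist_eq])
    obtain ⟨m, hmT, m', hm'T, h1, h2, -, -, -⟩ := D.cross p hpab hpM (min ε (p - a))
      (lt_min hε (by linarith [hpI.1]))
    have hm := D.sub hmT
    have k1 := min_le_left ε (p - a)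
    have k2 := min_le_right ε (p - a)
    have hc : IsCompact (F ∩ Icc m p) := isCompact_Icc.inter_left hFc
    have hne : (F ∩ Icc m p).Nonempty := ⟨p, hp, h2.le, le_rfl⟩
    obtain ⟨u, hue⟩ : ∃ u, u = sInf (F ∩ Icc m p) := ⟨_, rfl⟩
    have hu := hc.sInf_mem hne
    rw [← hue] at hu
    obtain ⟨huM, huU, huab⟩ := (hFm u).1 hu.1
    have hum : m < u := lt_of_le_of_ne hu.2.1 (fun e => huM (e ▸ hm))
    refine hball u (by rw [abs_lt]; constructor <;> linarith [hu.2.2])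
      (gapL u huab m huM huU hum (by linarith) ?_)
    intro y hy
    refine hnF y ⟨by linarith [hy.1], by linarith [hy.2, (hFI u hu.1).2]⟩ (fun hyF => ?_)
    have : u ≤ y := by
      rw [hue]; exact csInf_le hc.bddBelow ⟨hyF, hy.1.le, by linarith [hu.2.2, hy.2]⟩
    linarith [hy.2]
  have hFe : F = ∅ := by
    by_contra hne0
    have hne : F.Nonempty := nonempty_iff_ne_empty.2 hne0
    have hiso : ∃ u ∈ F, ¬ AccPt u (𝓟 F) := by
      by_contra hno
      push Not at hno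
      have hP : Perfect F := ⟨hFc, fun u hu => hno u hu⟩
      obtain ⟨f, hf, -, hfi⟩ := hP.exists_nat_bool_injection hne
      have hcount : (range f).Countable := D.Zc.mono (hf.trans hFZ)
      have hcn : Countable (ℕ → Bool) :=
        (Equiv.ofInjective f hfi).countable_iff.2 hcount.to_subtype
      obtain ⟨e, he⟩ := exists_injective_nat (ℕ → Bool)
      refine Function.cantor_injective (fun s : Set ℕ => e (fun n => decide (n ∈ s))) ?_
      intro s t hst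
      have h1 := he hst
      ext n
      have h2 := congrFun h1 n
      simpa using h2
    obtain ⟨u, hu, hacc⟩ := hiso
    obtain ⟨huM, huU, huab⟩ := (hFm u).1 hu
    have huI := hFI u hu
    have hev : ∀ᶠ y in 𝓝 u, y ≠ u → y ∉ F := by
      rw [accPt_iff_frequently, not_frequently] at hacc
      filter_upwards [hacc] with y hy hyu hyF
      exact hy ⟨hyu, hyF⟩
    obtain ⟨ε0, hε0, hb0⟩ := Metric.eventually_nhds_iff_ball.1 hev
    obtain ⟨ε, hε, e1, e2, e3⟩ : ∃ ε > 0, ε ≤ ε0 ∧ ε ≤ u - a ∧ ε ≤ b - u :=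
      ⟨min ε0 (min (u - a) (b - u)), lt_min hε0 (lt_min (by linarith [huI.1]) (by linarith [huI.2])),
        min_le_left _ _, (min_le_right _ _).trans (min_le_left _ _),
        (min_le_right _ _).trans (min_le_right _ _)⟩
    have hb : ∀ y, u - ε < y → y < u + ε → y ≠ u → y ∈ U := fun y h1 h2 h3 =>
      hnF y ⟨by linarith, by linarith⟩ (hb0 y (by
        rw [Metric.mem_ball, Real.dist_eq, abs_lt]; constructor <;> linarith) h3)
    obtain ⟨z1, hz1⟩ := chain (u - ε) u (fun y hy => hb y hy.1 (by linarith [hy.2]) hy.2.ne)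
    obtain ⟨z2, hz2⟩ := chain u (u + ε) (fun y hy => hb y (by linarith [hy.1]) hy.2 hy.1.ne')
    obtain ⟨s, hs, s', hs', k1, k2, k3, k4, k5⟩ := D.cross u huab huM ε hε
    have e : z2 = z1 := by
      rw [← hz1 s ⟨k1, k2⟩ (D.sub hs), ← hz2 s' ⟨k3, k4⟩ (D.sub hs'),
        hT s hs (by linarith) (by linarith), hT s' hs' (by linarith) (by linarith)]
      exact z2e.1 k5
    apply huU
    rw [hU]
    refine ⟨huI, z1, ?_⟩
    rw [hL]
    filter_upwards [Ioo_mem_nhds (show u - ε < u by linarith) (show u < u + ε by linarith)] with y hy hyM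
    rcases lt_trichotomy y u with h1 | h1 | h1
    · exact hz1 y ⟨hy.1, h1⟩ hyM
    · exact absurd (h1 ▸ hyM) huM
    · rw [← e]; exact hz2 y ⟨h1, hy.2⟩ hyM
  obtain ⟨z, hz⟩ := chain a b (fun y hy => hnF y hy (by rw [hFe]; exact notMem_empty y))
  have haM := D.op.mem_nhds (D.sub D.ha)
  obtain ⟨ε, hε, hball⟩ := Metric.mem_nhds_iff.1 haM
  obtain ⟨s, k1, k2, k3⟩ : ∃ s, a < s ∧ s < b ∧ s < a + ε :=
    ⟨min ((a + b) / 2) (a + ε / 2), lt_min (by linarith) (by linarith),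
      lt_of_le_of_lt (min_le_left _ _) (by linarith), lt_of_le_of_lt (min_le_right _ _) (by linarith)⟩
  have hIM : Icc a s ⊆ M := fun y hy => hball (by
    rw [Metric.mem_ball, Real.dist_eq, abs_lt]; constructor <;> linarith [hy.1, hy.2])
  have ea : (x a : ZMod 2) = z := by
    rw [← hz s ⟨k1, k2⟩ (hIM ⟨k1.le, le_rfl⟩)]
    exact ((hh s _ (hIM ⟨k1.le, le_rfl⟩) k1 k2.le).1 ⟨a, D.ha, le_rfl, k1, hIM, rfl⟩).symm
  obtain ⟨r, hr, m0, m1, m2⟩ := D.left0 hab le_rfl (D.sub D.hb)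
  have eb : (x b : ZMod 2) = z := by
    have h1 : (x r : ZMod 2) = x b := D.eq_of hr D.hb m0 m1.le le_rfl le_rfl m2
    have h2 : (r + b) / 2 ∈ M := m2 ⟨by linarith, by linarith⟩
    rw [← h1, ← hz ((r + b) / 2) ⟨by linarith, by linarith⟩ h2]
    exact ((hh _ _ h2 (by linarith) (by linarith)).1 ⟨r, hr, m0, by linarith,
      (Icc_subset_Icc_right (by linarith)).trans m2, rfl⟩).symm
  rw [z2e, ea, eb]

end Pool.Agent.U619.PEG
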