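import Pool.Agent.Y535.PEG.ExC
import Pool.Agent.U619.PEG.Loc

/-! Local similarities of the branches of a Jordan curve and the localisation of charges. -/

set_option autoImplicit false
open Complex Set Topology Metric Filter

namespace Pool.Agent.U619.PEG

open Pool.Agent.H763R2 Pool.Agent.H763R2.An Pool.Agent.W675.Peg Pool.Agent.TH569.Peg
open Pool.Agent.H763R2.Dm (NoSq floor_const)
open Pool.Agent.Y535.PEG

variable {c : ℝ → ℂ}

theorem cone_mon {s : ℝ} (h : Cone c s) : Mon c s := by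
  obtain ⟨ρ, hρ, w, hw⟩ := h
  exact ⟨ρ, hρ, w, fun x y hx hy hxy => (abs_nonneg _).trans_lt (hw x y hx hy hxy)⟩

theorem mon_open : IsOpen {t | Mon c t} := by
  rw [isOpen_iff_mem_nhds]
  rintro t ⟨ρ, hρ, w, hw⟩
  filter_upwards [ball_mem_nhds t (half_pos hρ)] with s hs
  rw [mem_ball, Real.dist_eq] at hs
  refine ⟨ρ / 2, half_pos hρ, w, fun x y hx hy hxy => hw x y ?_ ?_ hxy⟩
  · have := abs_add_le (x - s) (s - t)
    rw [sub_add_sub_cancel] at this
    linarith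
  · have := abs_add_le (y - s) (s - t)
    rw [sub_add_sub_cancel] at this
    linarith

/-- image of a cone point under an order reversing change of parameter -/
theorem cone_map {T : ℂ → ℂ} {u : ℂ} {e : ℤ} (hT : Smy T u e) {φ : ℝ → ℝ} {p q : ℝ}
    (P : Mp c T φ p q (-1)) {r : ℝ} (hr : r ∈ Ioo p q) (h : Cone c r) : Cone c (φ r) := by
  obtain ⟨ρ, hρ, w, hw⟩ := h
  have hanti : StrictAntiOn φ (Icc p q) := by
    rcases P.mono with ⟨h1, -⟩ | ⟨-, h2, -⟩
    · exact absurd h1 (by decide)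
    · exact h2
  obtain ⟨δ, hδ, d1, d2, d3⟩ : ∃ δ > 0, δ < ρ ∧ p ≤ r - δ ∧ r + δ ≤ q :=
    ⟨min (ρ / 2) (min (r - p) (q - r)), lt_min (by linarith) (lt_min (by linarith [hr.1])
      (by linarith [hr.2])), lt_of_le_of_lt (min_le_left _ _) (by linarith),
      by linarith [(min_le_right (ρ / 2) (min (r - p) (q - r))).trans (min_le_left _ _)],
      by linarith [(min_le_right (ρ / 2) (min (r - p) (q - r))).trans (min_le_right _ _)]⟩
  have hI : Icc (r - δ) (r + δ) ⊆ Icc p q := Icc_subset_Icc d2 d3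
  have m1 : r - δ ∈ Icc p q := hI ⟨le_rfl, by linarith⟩
  have m2 : r + δ ∈ Icc p q := hI ⟨by linarith, le_rfl⟩
  have m0 : r ∈ Icc p q := ⟨hr.1.le, hr.2.le⟩
  have g1 := hanti m1 m0 (by linarith)
  have g2 := hanti m0 m2 (by linarith)
  have pre : ∀ y, φ (r + δ) ≤ y → y ≤ φ (r - δ) → ∃ s ∈ Icc (r - δ) (r + δ), φ s = y := by
    intro y h1 h2
    obtain ⟨s, hs, hse⟩ := intermediate_value_Icc' (by linarith : r - δ ≤ r + δ) (P.cont.mono hI)
      (show y ∈ Icc (φ (r + δ)) (φ (r - δ)) from ⟨h1, h2⟩)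
    exact ⟨s, hs, hse⟩
  have hu := hT.ne
  have key : ∃ w' : ℂ, ∀ s s' : ℝ, (w' * (T (c s') - T (c s))).re = (w * (c s - c s')).re ∧
      |(w' * (T (c s') - T (c s))).im| = |(w * (c s - c s')).im| := by
    rcases hT.h with ⟨-, v, hv⟩ | ⟨-, v, hv⟩
    · refine ⟨-w / u, fun s s' => ?_⟩
      rw [hv, hv]
      have : -w / u * (u * c s' + v - (u * c s + v)) = w * (c s - c s') := by
        field_simp; ring
      rw [this]; exact ⟨rfl, rfl⟩
    · refine ⟨-(starRingEnd ℂ) w / u, fun s s' => ?_⟩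
      rw [hv, hv]
      have : -(starRingEnd ℂ) w / u * (u * (starRingEnd ℂ) (c s') + v -
          (u * (starRingEnd ℂ) (c s) + v)) = (starRingEnd ℂ) (w * (c s - c s')) := by
        simp only [map_mul, map_sub]
        field_simp; ring
      rw [this, conj_re, conj_im, abs_neg]; exact ⟨rfl, rfl⟩
  obtain ⟨w', hw'⟩ := key
  refine ⟨min (φ (r - δ) - φ r) (φ r - φ (r + δ)), lt_min (by linarith) (by linarith), w', ?_⟩
  intro x y hx hy hxy
  rw [lt_min_iff, abs_lt, abs_lt] at hx hy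
  obtain ⟨s, hs, rfl⟩ := pre x (by linarith [hx.2.1]) (by linarith [hx.1.2])
  obtain ⟨s', hs', rfl⟩ := pre y (by linarith [hy.2.1]) (by linarith [hy.1.2])
  have hss : s' < s := by
    by_contra hle
    push Not at hle
    have := hanti.antitoneOn (hI hs) (hI hs') hle
    linarith
  rw [P.eq s (hI hs), P.eq s' (hI hs'), (hw' s s').1, (hw' s s').2]
  exact hw s' s (by rw [abs_lt]; constructor <;> linarith [hs'.1, hs'.2])
    (by rw [abs_lt]; constructor <;> linarith [hs.1, hs.2]) hss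

/-- the image of an arc -/
theorem im_arc {T : ℂ → ℂ} {φ : ℝ → ℝ} {p q : ℝ} (P : Mp c T φ p q (-1)) {r r' : ℝ}
    (hr : r ∈ Icc p q) (hr' : r' ∈ Icc p q) (h : r ≤ r') :
    T '' (c '' Icc r r') = c '' Icc (φ r') (φ r) := by
  have hanti : StrictAntiOn φ (Icc p q) := by
    rcases P.mono with ⟨h1, -⟩ | ⟨-, h2, -⟩
    · exact absurd h1 (by decide)
    · exact h2
  have hI : Icc r r' ⊆ Icc p q := Icc_subset_Icc hr.1 hr'.2
  ext z
  constructor
  · rintro ⟨_, ⟨s, hs, rfl⟩, rfl⟩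
    rw [← P.eq s (hI hs)]
    exact ⟨φ s, ⟨hanti.antitoneOn (hI hs) hr' hs.2, hanti.antitoneOn hr (hI hs) hs.1⟩, rfl⟩
  · rintro ⟨y, hy, rfl⟩
    obtain ⟨s, hs, rfl⟩ := intermediate_value_Icc' h (P.cont.mono hI) hy
    exact ⟨c s, ⟨s, hs, rfl⟩, (P.eq s (hI hs)).symm⟩

/-- the rules used: similar arcs have the same charge up to the sign -/
def SimR (c : ℝ → ℂ) (x : ℝ → ℤ) : Prop :=
  ∀ s t s' t', AR c s t → AR c s' t' → (KP c s t s' t' ∨ SP c s t s' t') →
    x t' - x s' = x t - x s ∨ x t' - x s' = -(x t - x s)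

theorem even_map (L : Loop c) (J : Inj c) {x : ℝ → ℤ} (hx : SimR c x) {T : ℂ → ℂ} {u : ℂ} {e : ℤ}
    (hT : Smy T u e) {φ : ℝ → ℝ} {p q : ℝ} (P : Mp c T φ p q (-1)) {r r' : ℝ} (hr : r ∈ Ioo p q)
    (hr' : r' ∈ Ioo p q) (h : r < r') (C : Cone c r) (C' : Cone c r')
    (hE : Even (x (φ r') - x (φ r))) : Even (x r' - x r) := by
  have hanti : StrictAntiOn φ (Icc p q) := by
    rcases P.mono with ⟨h1, -⟩ | ⟨-, h2, -⟩
    · exact absurd h1 (by decide)
    · exact h2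
  have hlen : φ p < φ q + 1 := by
    rcases P.mono with ⟨h1, -⟩ | ⟨-, -, h2⟩
    · exact absurd h1 (by decide)
    · exact h2
  have m : r ∈ Icc p q := ⟨hr.1.le, hr.2.le⟩
  have m' : r' ∈ Icc p q := ⟨hr'.1.le, hr'.2.le⟩
  have mp : p ∈ Icc p q := ⟨le_rfl, P.ab.le⟩
  have mq : q ∈ Icc p q := ⟨P.ab.le, le_rfl⟩
  have h1 := hanti m m' h
  have h2 := hanti.antitoneOn mp m hr.1.le
  have h3 := hanti.antitoneOn m' mq hr'.2.le
  have a1 : AR c r r' := ⟨h, by linarith [hr.1, hr'.2, P.b1], C, C'⟩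
  have a2 : AR c (φ r') (φ r) := ⟨h1, by linarith, cone_map hT P hr' C', cone_map hT P hr C⟩
  have him := im_arc P m m' h.le
  have hKS : KP c r r' (φ r') (φ r) ∨ SP c r r' (φ r') (φ r) := by
    rcases hT.h with ⟨-, v, hv⟩ | ⟨-, v, hv⟩
    · refine sim_cases L J a1 a2 hT.ne (v := v) (Or.inl ?_)
      rw [← him]; congr 1; funext z; exact (hv z).symm
    · refine sim_cases L J a1 a2 hT.ne (v := v) (Or.inr ?_)
      rw [← him]; congr 1; funext z; exact (hv z).symm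
  obtain ⟨k, hk⟩ := hE
  rcases hx _ _ _ _ a1 a2 hKS with e1 | e1
  · exact ⟨-k, by linarith⟩
  · exact ⟨k, by linarith⟩

theorem smx_smy {f : ℂ → ℂ} (h : ∃ u v : ℂ, u ≠ 0 ∧
    (f = (fun z => u * z + v) ∨ f = fun z => u * (starRingEnd ℂ) z + v)) :
    ∃ u e, Smy f u e := by
  obtain ⟨u, v, hu, h | h⟩ := h
  · exact ⟨u, 1, hu, Or.inl ⟨rfl, v, fun z => by rw [h]⟩⟩
  · exact ⟨u, -1, hu, Or.inr ⟨rfl, v, fun z => by rw [h]⟩⟩

theorem Smy.inverse {f : ℂ → ℂ} {u : ℂ} {e : ℤ} (h : Smy f u e) :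
    ∃ g u', Smy g u' e ∧ (∀ z, g (f z) = z) ∧ ∀ z, f (g z) = z := by
  have hu := h.ne
  have hcu : (starRingEnd ℂ) u ≠ 0 := by
    intro h0
    exact hu ((starRingEnd ℂ).injective (by rw [h0, map_zero]))
  rcases h.h with ⟨he, v, hv⟩ | ⟨he, v, hv⟩
  · refine ⟨fun z => u⁻¹ * z + (-(u⁻¹ * v)), u⁻¹, ⟨inv_ne_zero hu, Or.inl ⟨he, _, fun z => rfl⟩⟩,
      fun z => ?_, fun z => ?_⟩
    · simp only [hv]; field_simp; ring
    · simp only [hv]; field_simp; ring
  · refine ⟨fun z => ((starRingEnd ℂ) u)⁻¹ * (starRingEnd ℂ) z +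
      (-(((starRingEnd ℂ) u)⁻¹ * (starRingEnd ℂ) v)), ((starRingEnd ℂ) u)⁻¹,
      ⟨inv_ne_zero hcu, Or.inr ⟨he, _, fun z => rfl⟩⟩, fun z => ?_, fun z => ?_⟩
    · simp only [hv, map_add, map_mul, conj_conj]; field_simp; ring
    · simp only [hv, map_add, map_mul, map_neg, map_inv₀, conj_conj]; field_simp; ring

/-- the two branches of the curve at the parameter `t` are similar -/
def SB (c : ℝ → ℂ) (t : ℝ) : Prop := ∃ a b, a < t ∧ t < b ∧ b < a + 1 ∧ ∃ f : ℂ → ℂ,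
  (∃ u v : ℂ, u ≠ 0 ∧ (f = (fun z => u * z + v) ∨ f = fun z => u * (starRingEnd ℂ) z + v)) ∧
  f '' (c '' Icc t b) = c '' Icc a t ∧ f (c t) = c t

theorem con_map (L : Loop c) (J : Inj c) {x : ℝ → ℤ} (hx : SimR c x) {T : ℂ → ℂ} {u : ℂ} {e : ℤ}
    (hT : Smy T u e) {φ : ℝ → ℝ} {p q : ℝ} (P : Mp c T φ p q (-1)) {v w v' w' : ℝ}
    (h1 : Ioo v w ⊆ Ioo p q) (h2 : ∀ r ∈ Ioo v w, φ r ∈ Ioo v' w')
    (hC : Con {t | Cone c t} x v' w') : Con {t | Cone c t} x v w := by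
  have main : ∀ r r', Cone c r → Cone c r' → r ∈ Ioo v w → r' ∈ Ioo v w → r < r' →
      Even (x r' - x r) := fun r r' hr hr' m m' h =>
    even_map L J hx hT P (h1 m) (h1 m') h hr hr'
      (hC _ (cone_map hT P (h1 m) hr) _ (cone_map hT P (h1 m') hr') (h2 r m) (h2 r' m'))
  intro r hr r' hr' m m'
  rcases lt_trichotomy r r' with h | h | h
  · exact main r r' hr hr' m m' h
  · rw [h, sub_self]; exact Even.zero
  · have := (main r' r hr' hr m' m h).neg
    rwa [neg_sub] at this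

theorem tr2_of (L : Loop c) (J : Inj c) {x : ℝ → ℤ} (hx : SimR c x) {t : ℝ} (h : SB c t) {a' : ℝ}
    (ha : a' < t) (hC : Con {t | Cone c t} x a' t) : ∃ b', t < b' ∧ Con {t | Cone c t} x t b' := by
  obtain ⟨a, b, hat, htb, hba, f, hf, him, hfix⟩ := h
  obtain ⟨u, e, hT⟩ := smx_smy hf
  obtain ⟨φ, d, P, hφ⟩ := mk_mp L J hT htb (by linarith) hat (by linarith) him
  have mt : t ∈ Icc t b := ⟨le_rfl, htb.le⟩
  rcases hφ with ⟨-, e1, -⟩ | ⟨rfl, e1, e2⟩
  · exfalso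
    have := P.eq t mt
    rw [e1, hfix] at this
    exact J a t hat (by linarith) this
  have hanti : StrictAntiOn φ (Icc t b) := by
    rcases P.mono with ⟨h1, -⟩ | ⟨-, h2, -⟩
    · exact absurd h1 (by decide)
    · exact h2
  have hc : ContinuousWithinAt φ (Icc t b) t := P.cont t mt
  have hev : ∀ᶠ s in 𝓝[Icc t b] t, a' < φ s :=
    hc.eventually (by rw [e1]; exact lt_mem_nhds ha)
  rw [eventually_nhdsWithin_iff] at hev
  obtain ⟨ε, hε, hb⟩ := Metric.eventually_nhds_iff_ball.1 hev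
  refine ⟨min b (t + ε), lt_min htb (by linarith), con_map L J hx hT P
    (Ioo_subset_Ioo_right (min_le_left _ _)) (fun r hr => ?_) hC⟩
  have k1 := lt_min_iff.1 hr.2
  have mr : r ∈ Icc t b := ⟨hr.1.le, k1.1.le⟩
  refine ⟨hb r (by rw [mem_ball, Real.dist_eq, abs_lt]; constructor <;> linarith [hr.1, k1.2]) mr, ?_⟩
  have := hanti mt mr hr.1
  rwa [e1] at this

theorem tr1_of (L : Loop c) (J : Inj c) {x : ℝ → ℤ} (hx : SimR c x) {t : ℝ} (h : SB c t) {b' : ℝ}
    (hb' : t < b') (hC : Con {t | Cone c t} x t b') : ∃ a', a' < t ∧ Con {t | Cone c t} x a' t := by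
  obtain ⟨a, b, hat, htb, hba, f, hf, him, hfix⟩ := h
  obtain ⟨u, e, hT0⟩ := smx_smy hf
  obtain ⟨g, u', hT, hg1, hg2⟩ := Smy.inverse hT0
  have him' : g '' (c '' Icc a t) = c '' Icc t b := by
    rw [← him]
    ext z
    constructor
    · rintro ⟨_, ⟨y, hy, rfl⟩, rfl⟩
      rw [hg1]; exact hy
    · intro hz
      exact ⟨f z, ⟨z, hz, rfl⟩, hg1 z⟩
  have hfix' : g (c t) = c t := by
    conv_lhs => rw [← hfix]
    exact hg1 _
  obtain ⟨φ, d, P, hφ⟩ := mk_mp L J hT hat (by linarith) htb (by linarith) him'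
  have mt : t ∈ Icc a t := ⟨hat.le, le_rfl⟩
  rcases hφ with ⟨-, -, e1⟩ | ⟨rfl, e2, e1⟩
  · exfalso
    have := P.eq t mt
    rw [e1, hfix'] at this
    exact J t b htb (by linarith) this.symm
  have hanti : StrictAntiOn φ (Icc a t) := by
    rcases P.mono with ⟨h1, -⟩ | ⟨-, h2, -⟩
    · exact absurd h1 (by decide)
    · exact h2
  have hc : ContinuousWithinAt φ (Icc a t) t := P.cont t mt
  have hev : ∀ᶠ s in 𝓝[Icc a t] t, φ s < b' :=
    hc.eventually (by rw [e1]; exact gt_mem_nhds hb')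
  rw [eventually_nhdsWithin_iff] at hev
  obtain ⟨ε, hε, hb⟩ := Metric.eventually_nhds_iff_ball.1 hev
  refine ⟨max a (t - ε), max_lt hat (by linarith), con_map L J hx hT P
    (Ioo_subset_Ioo_left (le_max_left _ _)) (fun r hr => ?_) hC⟩
  have k1 := max_lt_iff.1 hr.1
  have mr : r ∈ Icc a t := ⟨k1.1.le, hr.2.le⟩
  refine ⟨?_, hb r (by rw [mem_ball, Real.dist_eq, abs_lt]; constructor <;> linarith [hr.2, k1.2]) mr⟩
  have := hanti mr mt hr.2
  rwa [e1] at this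

/-- **Localisation.** An arc all points of which are good has an even charge. -/
theorem loc_even (L : Loop c) (J : Inj c) {x : ℝ → ℤ}
    (hm : ∀ s t, AR c s t → (∀ r ∈ Icc s t, Mon c r) → x t = x s) (hx : SimR c x) {a b : ℝ}
    (h : AR c a b) {Z : Set ℝ} (Zc : Z.Countable) (Zcl : IsClosed Z)
    (H : ∀ t ∈ Icc a b, Mon c t ∨ ((∀ ε > 0, ∃ s s', t - ε < s ∧ s < t ∧ t < s' ∧ s' < t + ε ∧
      Cone c s ∧ Cone c s' ∧ Even (x s' - x s)) ∧ (t ∈ Z ∨ SB c t))) : Even (x b - x a) := by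
  refine Data.even (M := {t | Mon c t}) (T := {t | Cone c t}) (Z := Z) ⟨fun t => cone_mon, mon_open,
    h.ab, h.ha, h.hb, ?_, ?_, Zc, Zcl, ?_, ?_⟩
  · intro s hs t ht has hst htb hI
    rw [hm s t ⟨hst, by linarith [h.ba], hs, ht⟩ hI, sub_self]
    exact Even.zero
  · intro t ht htM ε hε
    rcases H t ht with h1 | ⟨h1, -⟩
    · exact absurd h1 htM
    · obtain ⟨s, s', k1, k2, k3, k4, k5, k6, k7⟩ := h1 ε hε
      exact ⟨s, k5, s', k6, k1, k2, k3, k4, k7⟩
  · intro t ht htM htZ b' hb' hC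
    rcases H t ht with h1 | ⟨-, h1 | h1⟩
    · exact absurd h1 htM
    · exact absurd h1 htZ
    · obtain ⟨a', k1, k2⟩ := tr1_of L J hx h1 hb' hC
      exact ⟨a', k1, k2⟩
  · intro t ht htM htZ a' ha' hC
    rcases H t ht with h1 | ⟨-, h1 | h1⟩
    · exact absurd h1 htM
    · exact absurd h1 htZ
    · exact tr2_of L J hx h1 ha' hC

/-- a similarity whose square fixes two points is an involution -/
theorem Smy.invol {T : ℂ → ℂ} {u : ℂ} {e : ℤ} (hT : Smy T u e) {p q : ℂ} (hpq : p ≠ q)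
    (h1 : T p = q) (h2 : T q = p) (z : ℂ) : T (T z) = z := by
  have hne : p - q ≠ 0 := sub_ne_zero.2 hpq
  rcases hT.h with ⟨-, v, hv⟩ | ⟨-, v, hv⟩
  · rw [hv] at h1 h2
    have h3 : u * u = 1 := by
      have : u * u * (p - q) = p - q := by
        have e1 : u * (p - q) = q - p := by linear_combination h1 - h2
        rw [mul_assoc, e1]
        linear_combination (-1 : ℂ) * e1
      exact mul_right_cancel₀ hne (by rw [this, one_mul])
    have h4 : u * v + v = 0 := by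
      have e1 : u * (u * p + v) + v = p := by rw [h1, h2]
      linear_combination e1 - p * h3
    rw [hv, hv]
    linear_combination z * h3 + h4
  · rw [hv] at h1 h2
    have e1 : u * ((starRingEnd ℂ) p - (starRingEnd ℂ) q) = q - p := by linear_combination h1 - h2
    have e2 : (starRingEnd ℂ) u * (p - q) = (starRingEnd ℂ) q - (starRingEnd ℂ) p := by
      have := congrArg (starRingEnd ℂ) e1
      simpa only [map_mul, map_sub, conj_conj] using this
    have h3 : u * (starRingEnd ℂ) u = 1 := by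
      have : u * (starRingEnd ℂ) u * (p - q) = p - q := by
        rw [mul_assoc, e2]
        linear_combination (-1 : ℂ) * e1
      exact mul_right_cancel₀ hne (by rw [this, one_mul])
    have h4 : u * (starRingEnd ℂ) v + v = 0 := by
      have e3 : u * (starRingEnd ℂ) (u * (starRingEnd ℂ) p + v) + v = p := by rw [h1, h2]
      simp only [map_add, map_mul, conj_conj] at e3
      linear_combination e3 - p * h3
    rw [hv, hv]
    simp only [map_add, map_mul, conj_conj]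
    linear_combination z * h3 + h4

/-- the centre of a symmetric arc -/
theorem sym_centre (L : Loop c) (J : Inj c) {t a b : ℝ} (hat : a < t) (htb : t < b)
    (hba : b < a + 1) {f : ℂ → ℂ} (hf : ∃ u v : ℂ, u ≠ 0 ∧ (f = (fun z => u * z + v) ∨
      f = fun z => u * (starRingEnd ℂ) z + v)) (him : f '' (c '' Icc a b) = c '' Icc a b)
    (hfa : f (c a) = c b) (hft : f (c t) = c t) :
    SB c t ∧ ∀ ε > 0, ∃ δ > 0, ∀ s, |s - t| < δ → s ≠ t → Cone c s → ∃ s1 s2, t - ε < s1 ∧ s1 < t ∧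
      t < s2 ∧ s2 < t + ε ∧ AR c s1 s2 ∧ f '' (c '' Icc s1 s2) = c '' Icc s1 s2 ∧
      f (c s1) = c s2 := by
  obtain ⟨u, e, hT⟩ := smx_smy hf
  obtain ⟨φ, d, P, hφ⟩ := mk_mp L J hT (by linarith) hba (by linarith) hba him
  have ma : a ∈ Icc a b := ⟨le_rfl, by linarith⟩
  have mb : b ∈ Icc a b := ⟨by linarith, le_rfl⟩
  have mt : t ∈ Icc a b := ⟨hat.le, htb.le⟩
  have hne : c a ≠ c b := J a b (by linarith) hba
  rcases hφ with ⟨-, e1, -⟩ | ⟨rfl, e1, e2⟩
  · exfalso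
    have := P.eq a ma
    rw [e1, hfa] at this
    exact hne this
  have hanti : StrictAntiOn φ (Icc a b) := by
    rcases P.mono with ⟨h1, -⟩ | ⟨-, h2, -⟩
    · exact absurd h1 (by decide)
    · exact h2
  have hmem : ∀ s ∈ Icc a b, φ s ∈ Icc a b := fun s hs => by
    have h1 := hanti.antitoneOn ma hs hs.1
    have h2 := hanti.antitoneOn hs mb hs.2
    rw [e1] at h1; rw [e2] at h2
    exact ⟨h2, h1⟩
  have hφt : φ t = t := inj_Icc J hba (hmem t mt) mt (by rw [P.eq t mt, hft])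
  have hfb : f (c b) = c a := by rw [← P.eq b mb, e2]
  have hinv : ∀ z, f (f z) = z := Smy.invol hT hne hfa hfb
  have hφφ : ∀ s ∈ Icc a b, φ (φ s) = s := fun s hs =>
    inj_Icc J hba (hmem _ (hmem s hs)) hs (by rw [P.eq _ (hmem s hs), P.eq s hs, hinv])
  refine ⟨⟨a, b, hat, htb, hba, f, hf, ?_, hft⟩, fun ε hε => ?_⟩
  · rw [im_arc P mt mb htb.le, e2, hφt]
  · have hc : ContinuousWithinAt φ (Icc a b) t := P.cont t mt
    have hev : ∀ᶠ s in 𝓝[Icc a b] t, φ s ∈ Ioo (t - ε) (t + ε) :=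
      hc.eventually (by rw [hφt]; exact Ioo_mem_nhds (by linarith) (by linarith))
    rw [eventually_nhdsWithin_iff] at hev
    obtain ⟨ε1, hε1, hb⟩ := Metric.eventually_nhds_iff_ball.1 hev
    refine ⟨min (min ε1 ε) (min (t - a) (b - t)), lt_min (lt_min hε1 hε)
      (lt_min (by linarith) (by linarith)), fun s hs hst hC => ?_⟩
    rw [lt_min_iff, lt_min_iff, lt_min_iff] at hs
    obtain ⟨⟨k1, k2⟩, k3, k4⟩ := hs
    have k5 := abs_lt.1 k2
    have k6 := (abs_lt.1 k3).1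
    have k7 := (abs_lt.1 k4).2
    have mo : s ∈ Ioo a b := ⟨by linarith, by linarith⟩
    have mc : s ∈ Icc a b := ⟨mo.1.le, mo.2.le⟩
    have hφs := hb s (by rw [mem_ball, Real.dist_eq]; exact k1) mc
    have hCφ := cone_map hT P mo hC
    rcases lt_or_gt_of_ne hst with h | h
    · have h1 := hanti mc mt h
      rw [hφt] at h1
      refine ⟨s, φ s, by linarith, h, h1, hφs.2, ⟨by linarith, ?_, hC, hCφ⟩, ?_, (P.eq s mc).symm⟩
      · linarith [(hmem s mc).2, mo.1]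
      · rw [im_arc P mc (hmem s mc) (by linarith), hφφ s mc]
    · have h1 := hanti mt mc h
      rw [hφt] at h1
      refine ⟨φ s, s, hφs.1, h1, h, by linarith, ⟨by linarith, ?_, hCφ, hC⟩, ?_, ?_⟩
      · linarith [(hmem s mc).1, mo.2]
      · rw [im_arc P (hmem s mc) mc (by linarith), hφφ s mc]
      · rw [← P.eq _ (hmem s mc), hφφ s mc]

end Pool.Agent.U619.PEG
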